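import Mathlib

set_option autoImplicit false

namespace Pool.Agent.Helper172.HS

open Set MeasureTheory

theorem analytic_inter {X : Type*} [TopologicalSpace X] [T2Space X] {s t : Set X}
    (hs : AnalyticSet s) (ht : AnalyticSet t) : AnalyticSet (s ∩ t) := by
  rw [inter_eq_iInter]
  apply AnalyticSet.iInter
  rintro (_ | _)
  · exact ht
  · exact hs

/-- An analytic set with at most one point in each vertical section is contained in a Borel
set with the same property. -/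
theorem analytic_graph_subset {X Y : Type*} [TopologicalSpace X] [PolishSpace X]
    [MeasurableSpace X] [BorelSpace X] [TopologicalSpace Y] [PolishSpace Y] [MeasurableSpace Y]
    [BorelSpace Y] {A : Set (X × Y)} (hA : AnalyticSet A)
    (h1 : ∀ x y y', (x, y) ∈ A → (x, y') ∈ A → y = y') :
    ∃ B : Set (X × Y), MeasurableSet B ∧ A ⊆ B ∧ ∀ x y y', (x, y) ∈ B → (x, y') ∈ B → y = y' := by
  classical
  obtain ⟨b, hb⟩ : ∃ b : Set (Set Y), b = TopologicalSpace.countableBasis Y := ⟨_, rfl⟩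
  have hbc : Countable b := by
    rw [hb]; exact (TopologicalSpace.countable_countableBasis Y).to_subtype
  have hbb : TopologicalSpace.IsTopologicalBasis b := by
    rw [hb]; exact TopologicalSpace.isBasis_countableBasis Y
  obtain ⟨P, hP⟩ : ∃ P : Set Y → Set X, ∀ U, P U = Prod.fst '' (A ∩ Prod.snd ⁻¹' U) :=
    ⟨_, fun _ => rfl⟩
  have hPa : ∀ U ∈ b, AnalyticSet (P U) := by
    intro U hU
    rw [hP]
    have hUo : IsOpen (Prod.snd ⁻¹' U : Set (X × Y)) := (hbb.isOpen hU).preimage continuous_snd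
    have : AnalyticSet (Prod.snd ⁻¹' U : Set (X × Y)) := by
      have := hUo.analyticSet_image continuous_id
      rwa [image_id] at this
    exact (analytic_inter hA this).image_of_continuous continuous_fst
  have hsep : ∀ p : b × b, ∃ D : Set X, MeasurableSet D ∧
      (Disjoint p.1.1 p.2.1 → P p.1.1 ⊆ D ∧ Disjoint (P p.2.1) D) := by
    intro p
    by_cases hd : Disjoint p.1.1 p.2.1
    · have hdis : Disjoint (P p.1.1) (P p.2.1) := by
        rw [Set.disjoint_left]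
        rw [hP, hP]
        rintro x ⟨⟨x1, y1⟩, ⟨hA1, hU1⟩, rfl⟩ ⟨⟨x2, y2⟩, ⟨hA2, hU2⟩, hx2⟩
        simp only at hx2
        subst hx2
        have := h1 _ _ _ hA1 hA2
        subst this
        exact Set.disjoint_left.1 hd hU1 hU2
      obtain ⟨D, hD1, hD2, hD3⟩ := (hPa _ p.1.2).measurablySeparable (hPa _ p.2.2) hdis
      exact ⟨D, hD3, fun _ => ⟨hD1, hD2⟩⟩
    · exact ⟨∅, MeasurableSet.empty, fun h => absurd h hd⟩
  choose D hDm hD using hsep
  refine ⟨⋂ p : b × b, {q : X × Y | Disjoint p.1.1 p.2.1 →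
    (q.2 ∈ p.1.1 → q.1 ∈ D p) ∧ (q.2 ∈ p.2.1 → q.1 ∉ D p)}, ?_, ?_, ?_⟩
  · refine MeasurableSet.iInter fun p => ?_
    by_cases hd : Disjoint p.1.1 p.2.1
    · have e : {q : X × Y | Disjoint p.1.1 p.2.1 →
          (q.2 ∈ p.1.1 → q.1 ∈ D p) ∧ (q.2 ∈ p.2.1 → q.1 ∉ D p)} =
          (Prod.snd ⁻¹' (p.1.1)ᶜ ∪ Prod.fst ⁻¹' (D p)) ∩
          (Prod.snd ⁻¹' (p.2.1)ᶜ ∪ Prod.fst ⁻¹' (D p)ᶜ) := by
        ext q
        simp only [mem_ofPred_eq, mem_inter_iff, mem_union, mem_preimage, mem_compl_iff]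
        constructor
        · intro h
          obtain ⟨h2, h3⟩ := h hd
          constructor
          · by_cases h4 : q.2 ∈ p.1.1
            · exact Or.inr (h2 h4)
            · exact Or.inl h4
          · by_cases h4 : q.2 ∈ p.2.1
            · exact Or.inr (h3 h4)
            · exact Or.inl h4
        · rintro ⟨h2, h3⟩ _
          exact ⟨fun h4 => h2.resolve_left (fun h => h h4), fun h4 => h3.resolve_left (fun h => h h4)⟩
      rw [e]
      have m1 : MeasurableSet p.1.1 := (hbb.isOpen p.1.2).measurableSet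
      have m2 : MeasurableSet p.2.1 := (hbb.isOpen p.2.2).measurableSet
      exact ((measurable_snd m1.compl).union (measurable_fst (hDm p))).inter
        ((measurable_snd m2.compl).union (measurable_fst (hDm p).compl))
    · have e : {q : X × Y | Disjoint p.1.1 p.2.1 →
          (q.2 ∈ p.1.1 → q.1 ∈ D p) ∧ (q.2 ∈ p.2.1 → q.1 ∉ D p)} = univ := by
        ext q
        simp only [mem_ofPred_eq, mem_univ, iff_true]
        exact fun h => absurd h hd
      rw [e]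
      exact MeasurableSet.univ
  · intro q hq
    rw [mem_iInter]
    intro p hd
    obtain ⟨h2, h3⟩ := hD p hd
    constructor
    · intro hqU
      apply h2
      rw [hP]
      exact ⟨q, ⟨hq, hqU⟩, rfl⟩
    · intro hqV hqD
      apply Set.disjoint_left.1 h3 _ hqD
      rw [hP]
      exact ⟨q, ⟨hq, hqV⟩, rfl⟩
  · intro x y y' hy hy'
    by_contra hne
    obtain ⟨U0, V0, hU0, hV0, hyU0, hyV0, hdis⟩ := t2_separation hne
    obtain ⟨U, hUb, hyU, hUU⟩ := hbb.exists_subset_of_mem_open hyU0 hU0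
    obtain ⟨V, hVb, hyV, hVV⟩ := hbb.exists_subset_of_mem_open hyV0 hV0
    have hd : Disjoint U V := hdis.mono hUU hVV
    have e1 := mem_iInter.1 hy (⟨U, hUb⟩, ⟨V, hVb⟩) hd
    have e2 := mem_iInter.1 hy' (⟨U, hUb⟩, ⟨V, hVb⟩) hd
    exact e2.2 hyV (e1.1 hyU)

/-- `T` is covered by countably many sets of the form `{(x, y) | (x, τ m y) ∈ G}` with `G` a Borel
graph. -/
def Small {X Y V : Type*} [MeasurableSpace X] [MeasurableSpace V] (τ : ℕ → Y → V)
    (T : Set (X × Y)) : Prop :=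
  ∃ (G : ℕ → Set (X × V)) (m : ℕ → ℕ), (∀ k, MeasurableSet (G k)) ∧
    (∀ k x v v', (x, v) ∈ G k → (x, v') ∈ G k → v = v') ∧
    ∀ p ∈ T, ∃ k, (p.1, τ (m k) p.2) ∈ G k

theorem small_mono {X Y V : Type*} [MeasurableSpace X] [MeasurableSpace V] {τ : ℕ → Y → V}
    {T T' : Set (X × Y)} (h : Small τ T') (hT : T ⊆ T') : Small τ T := by
  obtain ⟨G, m, h1, h2, h3⟩ := h
  exact ⟨G, m, h1, h2, fun p hp => h3 p (hT hp)⟩

theorem small_empty {X Y V : Type*} [MeasurableSpace X] [MeasurableSpace V] {τ : ℕ → Y → V} :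
    Small τ (∅ : Set (X × Y)) :=
  ⟨fun _ => ∅, fun _ => 0, fun _ => MeasurableSet.empty, fun _ _ _ _ h => absurd h (by simp),
    fun p hp => absurd hp (by simp)⟩

theorem small_iUnion {X Y V : Type*} [MeasurableSpace X] [MeasurableSpace V] {τ : ℕ → Y → V}
    {ι : Type*} [Countable ι] {T : ι → Set (X × Y)} (h : ∀ i, Small τ (T i)) :
    Small τ (⋃ i, T i) := by
  choose G m h1 h2 h3 using h
  rcases isEmpty_or_nonempty ι with hι | hι
  · rw [iUnion_of_empty]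
    exact small_empty
  · obtain ⟨e, he⟩ := exists_surjective_nat (ι × ℕ)
    refine ⟨fun n => G (e n).1 (e n).2, fun n => m (e n).1 (e n).2, fun n => h1 _ _,
      fun n => h2 _ _, ?_⟩
    intro p hp
    obtain ⟨i, hi⟩ := mem_iUnion.1 hp
    obtain ⟨k, hk⟩ := h3 i p hi
    obtain ⟨n, hn⟩ := he (i, k)
    refine ⟨n, ?_⟩
    beta_reduce
    rw [hn]
    exact hk

theorem small_union {X Y V : Type*} [MeasurableSpace X] [MeasurableSpace V] {τ : ℕ → Y → V}
    {S T : Set (X × Y)} (hS : Small τ S) (hT : Small τ T) : Small τ (S ∪ T) := by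
  rw [union_eq_iUnion]
  apply small_iUnion
  rintro (_ | _)
  · exact hT
  · exact hS

/-- configurations -/
def Conf {X Y : Type*} (φ : (ℕ → ℕ) → X × Y) (S : Set (X × Y)) : Set (ℕ → ℕ → ℕ) :=
  {γ | ∀ j, φ (γ j) ∈ S ∧ (φ (γ j)).1 = (φ (γ 0)).1}

theorem conf_mono {X Y : Type*} {φ : (ℕ → ℕ) → X × Y} {S T : Set (X × Y)} (h : S ⊆ T) :
    Conf φ S ⊆ Conf φ T := fun _ hγ j => ⟨h (hγ j).1, (hγ j).2⟩

/-- terminal data -/
def Term {X Y V : Type*} (φ : (ℕ → ℕ) → X × Y) (τ : ℕ → Y → V) (O : Set (ℕ → ℕ → ℕ))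
    (S : Set (X × Y)) (i n : ℕ) : Prop :=
  ∀ γ ∈ O ∩ Conf φ S, ∀ γ' ∈ O ∩ Conf φ S, (φ (γ i)).1 = (φ (γ' i)).1 →
    τ n (φ (γ i)).2 = τ n (φ (γ' i)).2

theorem term_anti {X Y V : Type*} {φ : (ℕ → ℕ) → X × Y} {τ : ℕ → Y → V}
    {O : Set (ℕ → ℕ → ℕ)} {S T : Set (X × Y)}
    {i n : ℕ} (h : S ⊆ T) (hT : Term φ τ O T i n) : Term φ τ O S i n :=
  fun γ hγ γ' hγ' => hT γ ⟨hγ.1, conf_mono h hγ.2⟩ γ' ⟨hγ'.1, conf_mono h hγ'.2⟩

theorem measurableSet_conf {X Y : Type*} [TopologicalSpace X] [PolishSpace X]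
    [MeasurableSpace X] [BorelSpace X] [TopologicalSpace Y] [PolishSpace Y] [MeasurableSpace Y]
    [BorelSpace Y] {φ : (ℕ → ℕ) → X × Y} (hφ : Continuous φ) {S : Set (X × Y)}
    (hS : MeasurableSet S) : MeasurableSet (Conf φ S) := by
  have e : Conf φ S = ⋂ j, ((fun γ : ℕ → ℕ → ℕ => φ (γ j)) ⁻¹' S ∩
      {γ | (φ (γ j)).1 = (φ (γ 0)).1}) := by
    ext γ
    simp [Conf]
  rw [e]
  refine MeasurableSet.iInter fun j => ?_
  have hc : Continuous (fun γ : ℕ → ℕ → ℕ => φ (γ j)) := hφ.comp (continuous_apply j)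
  have hc0 : Continuous (fun γ : ℕ → ℕ → ℕ => φ (γ 0)) := hφ.comp (continuous_apply 0)
  refine (hc.measurable hS).inter ?_
  exact (isClosed_eq (continuous_fst.comp hc) (continuous_fst.comp hc0)).measurableSet

/-- the main density property -/
theorem key_star {X Y V : Type*} [TopologicalSpace X] [PolishSpace X]
    [MeasurableSpace X] [BorelSpace X] [TopologicalSpace Y] [PolishSpace Y] [MeasurableSpace Y]
    [BorelSpace Y] [TopologicalSpace V] [PolishSpace V] [MeasurableSpace V] [BorelSpace V]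
    {φ : (ℕ → ℕ) → X × Y} (hφ : Continuous φ) {τ : ℕ → Y → V} (hτ : ∀ n, Continuous (τ n)) :
    ∃ S : Set (X × Y), MeasurableSet S ∧ Small τ (range φ \ S) ∧
      ∀ O ∈ TopologicalSpace.countableBasis (ℕ → ℕ → ℕ), ∀ i n, ∀ γ ∈ O ∩ Conf φ S,
        ¬ Term φ τ O S i n := by
  classical
  have hκc : Countable (TopologicalSpace.countableBasis (ℕ → ℕ → ℕ)) :=
    (TopologicalSpace.countable_countableBasis _).to_subtype
  -- choose good sets
  have h1 : ∀ c : (TopologicalSpace.countableBasis (ℕ → ℕ → ℕ)) × ℕ × ℕ, ∃ S : Set (X × Y),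
      (MeasurableSet S ∧ Small τ (range φ \ S)) ∧
      ∀ S' : Set (X × Y), MeasurableSet S' → Small τ (range φ \ S') →
        Term φ τ c.1.1 S' c.2.1 c.2.2 → Term φ τ c.1.1 S c.2.1 c.2.2 := by
    intro c
    by_cases h : ∃ S' : Set (X × Y), (MeasurableSet S' ∧ Small τ (range φ \ S')) ∧
        Term φ τ c.1.1 S' c.2.1 c.2.2
    · obtain ⟨S', hS', hT⟩ := h
      exact ⟨S', hS', fun _ _ _ _ => hT⟩
    · refine ⟨univ, ⟨MeasurableSet.univ, by rw [sdiff_univ]; exact small_empty⟩, ?_⟩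
      intro S' a1 a3 a4
      exact absurd ⟨S', ⟨a1, a3⟩, a4⟩ h
  choose S₁ hS₁ hT₁ using h1
  obtain ⟨S, hSdef⟩ : ∃ S, S = ⋂ c, S₁ c := ⟨_, rfl⟩
  have hSm : MeasurableSet S := by
    rw [hSdef]
    exact MeasurableSet.iInter fun c => (hS₁ c).1
  have hSsub : ∀ c, S ⊆ S₁ c := by
    intro c
    rw [hSdef]
    exact iInter_subset _ c
  have hSs : Small τ (range φ \ S) := by
    refine small_mono (small_iUnion fun c => (hS₁ c).2) ?_
    rintro p ⟨hpR, hpS⟩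
    rw [mem_iUnion]
    by_contra hcon
    push Not at hcon
    apply hpS
    rw [hSdef]
    refine mem_iInter.2 fun c => ?_
    by_contra hc
    exact hcon c ⟨hpR, hc⟩
  have hTS : ∀ c : (TopologicalSpace.countableBasis (ℕ → ℕ → ℕ)) × ℕ × ℕ, ∀ S' : Set (X × Y),
      MeasurableSet S' → Small τ (range φ \ S') → Term φ τ c.1.1 S' c.2.1 c.2.2 →
      Term φ τ c.1.1 S c.2.1 c.2.2 :=
    fun c S' a1 a3 a4 => term_anti (hSsub c) (hT₁ c S' a1 a3 a4)
  -- graphs to be removed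
  have h2 : ∀ c : (TopologicalSpace.countableBasis (ℕ → ℕ → ℕ)) × ℕ × ℕ, ∃ B : Set (X × V),
      MeasurableSet B ∧ (∀ x y y', (x, y) ∈ B → (x, y') ∈ B → y = y') ∧
      (Term φ τ c.1.1 S c.2.1 c.2.2 → ∀ γ ∈ c.1.1 ∩ Conf φ S,
        ((φ (γ c.2.1)).1, τ c.2.2 (φ (γ c.2.1)).2) ∈ B) := by
    intro c
    by_cases hT : Term φ τ c.1.1 S c.2.1 c.2.2
    · have hO : IsOpen c.1.1 := (TopologicalSpace.isBasis_countableBasis _).isOpen c.1.2
      have hc : Continuous (fun γ : ℕ → ℕ → ℕ => φ (γ c.2.1)) :=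
        hφ.comp (continuous_apply c.2.1)
      have hc' : Continuous (fun γ : ℕ → ℕ → ℕ =>
          ((φ (γ c.2.1)).1, τ c.2.2 (φ (γ c.2.1)).2)) :=
        (continuous_fst.comp hc).prodMk ((hτ c.2.2).comp (continuous_snd.comp hc))
      have ha : AnalyticSet ((fun γ : ℕ → ℕ → ℕ =>
          ((φ (γ c.2.1)).1, τ c.2.2 (φ (γ c.2.1)).2)) '' (c.1.1 ∩ Conf φ S)) :=
        (hO.measurableSet.inter (measurableSet_conf hφ hSm)).analyticSet.image_of_continuous hc'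
      obtain ⟨B, hB1, hB2, hB3⟩ := analytic_graph_subset ha (by
        rintro x y y' ⟨γ, hγ, hγe⟩ ⟨γ', hγ', hγe'⟩
        simp only [Prod.mk.injEq] at hγe hγe'
        have := hT γ hγ γ' hγ' (by rw [hγe.1, hγe'.1])
        rwa [hγe.2, hγe'.2] at this)
      exact ⟨B, hB1, hB3, fun _ γ hγ => hB2 ⟨γ, hγ, rfl⟩⟩
    · exact ⟨∅, MeasurableSet.empty, fun _ _ _ h => absurd h (by simp), fun h => absurd h hT⟩
  choose B hB1 hB2 hB3 using h2
  obtain ⟨D, hD⟩ : ∃ D : (TopologicalSpace.countableBasis (ℕ → ℕ → ℕ)) × ℕ × ℕ → Set (X × Y),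
      ∀ c, D c = (fun p : X × Y => (p.1, τ c.2.2 p.2)) ⁻¹' (B c) := ⟨_, fun _ => rfl⟩
  have hDm : ∀ c, MeasurableSet (D c) := by
    intro c
    rw [hD]
    exact (measurable_fst.prodMk ((hτ c.2.2).measurable.comp measurable_snd)) (hB1 c)
  have hDsmall : Small τ (⋃ c, D c) := small_iUnion fun c =>
    ⟨fun _ => B c, fun _ => c.2.2, fun _ => hB1 c, fun _ => hB2 c, fun p hp => ⟨0, by
      rw [hD] at hp
      exact hp⟩⟩
  have hSBm : MeasurableSet (S \ ⋃ c, D c) := hSm.diff (MeasurableSet.iUnion hDm)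
  have hSBs : Small τ (range φ \ (S \ ⋃ c, D c)) := by
    refine small_mono (small_union hSs hDsmall) ?_
    rintro p ⟨hpR, hp⟩
    by_cases hpS : p ∈ S
    · right
      by_contra hpB
      exact hp ⟨hpS, hpB⟩
    · left
      exact ⟨hpR, hpS⟩
  refine ⟨S \ ⋃ c, D c, hSBm, hSBs, ?_⟩
  intro O hO i n γ hγ hT
  have hT' := hTS (⟨O, hO⟩, i, n) _ hSBm hSBs hT
  have h3 := hB3 (⟨O, hO⟩, i, n) hT' γ ⟨hγ.1, conf_mono sdiff_subset hγ.2⟩
  refine (hγ.2 i).1.2 (mem_iUnion.2 ⟨(⟨O, hO⟩, i, n), ?_⟩)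
  rw [hD]
  exact h3

theorem isOpen_agree (j i m : ℕ) :
    IsOpen {γ : ℕ → ℕ → ℕ | ∀ l < m, γ j l = γ i l} := by
  have e : {γ : ℕ → ℕ → ℕ | ∀ l < m, γ j l = γ i l} =
      ⋂ l ∈ Finset.range m, {γ : ℕ → ℕ → ℕ | γ j l = γ i l} := by
    ext γ
    simp
  rw [e]
  refine isOpen_biInter_finset fun l _ => ?_
  have hc : Continuous (fun γ : ℕ → ℕ → ℕ => (γ j l, γ i l)) :=
    ((continuous_apply l).comp (continuous_apply j)).prodMk
      ((continuous_apply l).comp (continuous_apply i))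
  exact (isOpen_discrete {p : ℕ × ℕ | p.1 = p.2}).preimage hc

theorem isOpen_agree_const (i m : ℕ) (a : ℕ → ℕ) :
    IsOpen {γ : ℕ → ℕ → ℕ | ∀ l < m, γ i l = a l} := by
  have e : {γ : ℕ → ℕ → ℕ | ∀ l < m, γ i l = a l} =
      ⋂ l ∈ Finset.range m, {γ : ℕ → ℕ → ℕ | γ i l = a l} := by
    ext γ
    simp
  rw [e]
  refine isOpen_biInter_finset fun l _ => ?_
  have hc : Continuous (fun γ : ℕ → ℕ → ℕ => γ i l) :=
    (continuous_apply l).comp (continuous_apply i)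
  exact (isOpen_discrete {p : ℕ | p = a l}).preimage hc

theorem cyl_sub {W : Set (ℕ → ℕ)} (hW : IsOpen W) {a : ℕ → ℕ} (ha : a ∈ W) :
    ∃ m, ∀ b : ℕ → ℕ, (∀ l < m, b l = a l) → b ∈ W := by
  obtain ⟨I, u, hu, hI⟩ := isOpen_pi_iff.1 hW a ha
  refine ⟨I.sup id + 1, fun b hb => hI ?_⟩
  intro l hl
  have h1 : l ≤ I.sup id := Finset.le_sup (f := id) hl
  rw [hb l (Nat.lt_succ_of_le h1)]
  exact (hu l hl).2

/-- the first Baire category argument -/
theorem generic_exists {X Y V : Type*} [TopologicalSpace X] [PolishSpace X]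
    [TopologicalSpace Y] [PolishSpace Y] [TopologicalSpace V] [PolishSpace V]
    {φ : (ℕ → ℕ) → X × Y} (hφ : Continuous φ) {τ : ℕ → Y → V} (hτ : ∀ n, Continuous (τ n))
    {S : Set (X × Y)} (hne : (Conf φ S).Nonempty)
    (hS : ∀ O ∈ TopologicalSpace.countableBasis (ℕ → ℕ → ℕ), ∀ i n, ∀ γ ∈ O ∩ Conf φ S,
      ¬ Term φ τ O S i n) :
    ∃ γ : ℕ → ℕ → ℕ, γ ∈ closure (Conf φ S) ∧ ∀ i m n, ∃ j, (∀ l < m, γ j l = γ i l) ∧
      τ n (φ (γ j)).2 ≠ τ n (φ (γ i)).2 := by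
  classical
  have hCpol : PolishSpace (closure (Conf φ S)) := isClosed_closure.polishSpace
  have hCne : Nonempty (closure (Conf φ S)) := by
    obtain ⟨γ, hγ⟩ := hne
    exact ⟨⟨γ, subset_closure hγ⟩⟩
  have ho : ∀ p : ℕ × ℕ × ℕ, IsOpen {γ : closure (Conf φ S) |
      ∃ j, (∀ l < p.2.1, γ.1 j l = γ.1 p.1 l) ∧
      τ p.2.2 (φ (γ.1 j)).2 ≠ τ p.2.2 (φ (γ.1 p.1)).2} := by
    intro p
    have e : {γ : closure (Conf φ S) | ∃ j, (∀ l < p.2.1, γ.1 j l = γ.1 p.1 l) ∧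
        τ p.2.2 (φ (γ.1 j)).2 ≠ τ p.2.2 (φ (γ.1 p.1)).2} = Subtype.val ⁻¹' (⋃ j,
          ({γ : ℕ → ℕ → ℕ | ∀ l < p.2.1, γ j l = γ p.1 l} ∩
          {γ : ℕ → ℕ → ℕ | τ p.2.2 (φ (γ j)).2 ≠ τ p.2.2 (φ (γ p.1)).2})) := by
      ext γ
      simp
    rw [e]
    refine IsOpen.preimage continuous_subtype_val (isOpen_iUnion fun j => ?_)
    refine (isOpen_agree j p.1 p.2.1).inter ?_
    exact isOpen_ne_fun ((hτ _).comp (continuous_snd.comp (hφ.comp (continuous_apply j))))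
      ((hτ _).comp (continuous_snd.comp (hφ.comp (continuous_apply p.1))))
  have hd : ∀ p : ℕ × ℕ × ℕ, Dense {γ : closure (Conf φ S) |
      ∃ j, (∀ l < p.2.1, γ.1 j l = γ.1 p.1 l) ∧
      τ p.2.2 (φ (γ.1 j)).2 ≠ τ p.2.2 (φ (γ.1 p.1)).2} := by
    rintro ⟨i, m, n₀⟩
    rw [dense_iff_inter_open]
    rintro U hU ⟨γ, hγU⟩
    obtain ⟨O, hO, rfl⟩ := isOpen_induced_iff.1 hU
    obtain ⟨γ₀, hγ₀O, hγ₀C⟩ := mem_closure_iff.1 γ.2 O hO hγU
    have hO' : IsOpen (O ∩ {γ' : ℕ → ℕ → ℕ | ∀ l < m, γ' i l = γ₀ i l}) :=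
      hO.inter (isOpen_agree_const i m _)
    obtain ⟨I, u, hu, hI⟩ := isOpen_pi_iff.1 hO' γ₀ ⟨hγ₀O, fun _ _ => rfl⟩
    have hN : IsOpen ((I : Set ℕ).pi u) := isOpen_set_pi I.finite_toSet fun a ha => (hu a ha).1
    obtain ⟨O₂, hO₂b, hγ₀O₂, hO₂⟩ :=
      (TopologicalSpace.isBasis_countableBasis (ℕ → ℕ → ℕ)).exists_subset_of_mem_open
        (show γ₀ ∈ (I : Set ℕ).pi u from fun a ha => (hu a ha).2) hN
    have hnt := hS O₂ hO₂b i n₀ γ₀ ⟨hγ₀O₂, hγ₀C⟩
    unfold Term at hnt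
    push Not at hnt
    obtain ⟨γ₁, ⟨hγ₁O, hγ₁C⟩, γ₂, ⟨hγ₂O, hγ₂C⟩, hfst, hsnd⟩ := hnt
    obtain ⟨n, hn⟩ := Infinite.exists_notMem_finset (insert i I)
    rw [Finset.mem_insert, not_or] at hn
    obtain ⟨hni, hnI⟩ := hn
    have hγ₃C : Function.update γ₁ n (γ₂ i) ∈ Conf φ S := by
      have hx : ∀ j, φ (Function.update γ₁ n (γ₂ i) j) ∈ S ∧
          (φ (Function.update γ₁ n (γ₂ i) j)).1 = (φ (γ₁ 0)).1 := by
        intro j
        by_cases hj : j = n
        · subst hj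
          rw [Function.update_self]
          refine ⟨(hγ₂C i).1, ?_⟩
          rw [← hfst]
          exact (hγ₁C i).2
        · rw [Function.update_of_ne hj]
          exact ⟨(hγ₁C j).1, (hγ₁C j).2⟩
      intro j
      exact ⟨(hx j).1, (hx j).2.trans (hx 0).2.symm⟩
    have hγ₃N : Function.update γ₁ n (γ₂ i) ∈ (I : Set ℕ).pi u := by
      intro a ha
      have han : a ≠ n := by rintro rfl; exact hnI ha
      rw [Function.update_of_ne han]
      exact hO₂ hγ₁O a ha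
    refine ⟨⟨Function.update γ₁ n (γ₂ i), subset_closure hγ₃C⟩, ?_, ?_⟩
    · exact (hI hγ₃N).1
    · refine ⟨n, ?_, ?_⟩
      · intro l hl
        simp only
        rw [Function.update_self, Function.update_of_ne (Ne.symm hni)]
        rw [(hI (hO₂ hγ₂O)).2 l hl, (hI (hO₂ hγ₁O)).2 l hl]
      · simp only
        rw [Function.update_self, Function.update_of_ne (Ne.symm hni)]
        exact fun h => hsnd h.symm
  obtain ⟨γ, hγ⟩ := (dense_iInter_of_isOpen ho hd).nonempty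
  refine ⟨γ.1, γ.2, fun i m n => ?_⟩
  exact mem_iInter.1 hγ (i, m, n)

/-- The covering theorem: an analytic set each of whose vertical sections is covered by countably
many fibres of the maps `τ n` is covered by countably many preimages of Borel graphs. -/
theorem analytic_cover {X Y V : Type*} [TopologicalSpace X] [PolishSpace X]
    [MeasurableSpace X] [BorelSpace X] [TopologicalSpace Y] [PolishSpace Y] [MeasurableSpace Y]
    [BorelSpace Y] [TopologicalSpace V] [PolishSpace V] [MeasurableSpace V] [BorelSpace V]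
    {τ : ℕ → Y → V} (hτ : ∀ n, Continuous (τ n)) {P : Set (X × Y)} (hP : AnalyticSet P)
    (hc : ∀ x, ∃ C : Set (ℕ × V), C.Countable ∧ ∀ y, (x, y) ∈ P → ∃ c ∈ C, τ c.1 y = c.2) :
    Small τ P := by
  classical
  rw [AnalyticSet] at hP
  rcases hP with rfl | ⟨φ, hφ, hφR⟩
  · exact small_empty
  obtain ⟨S, hSm, hSs, hS⟩ := key_star hφ hτ
  rcases (range φ ∩ S).eq_empty_or_nonempty with h0 | ⟨p, hp⟩
  · refine small_mono hSs ?_
    rw [← hφR]
    intro p hp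
    refine ⟨hp, fun hpS => ?_⟩
    have : p ∈ range φ ∩ S := ⟨hp, hpS⟩
    rw [h0] at this
    exact this
  exfalso
  obtain ⟨⟨a, ha⟩, hpS⟩ := hp
  have hne : (Conf φ S).Nonempty := ⟨fun _ => a, fun j => ⟨by rw [ha]; exact hpS, rfl⟩⟩
  obtain ⟨γ, hγC, hγ⟩ := generic_exists hφ hτ hne hS
  have hx : ∀ j, (φ (γ j)).1 = (φ (γ 0)).1 := by
    intro j
    have hcl : IsClosed {γ : ℕ → ℕ → ℕ | (φ (γ j)).1 = (φ (γ 0)).1} :=
      isClosed_eq (continuous_fst.comp (hφ.comp (continuous_apply j)))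
        (continuous_fst.comp (hφ.comp (continuous_apply 0)))
    exact closure_minimal (fun γ' hγ' => (hγ' j).2) hcl hγC
  have hKpol : PolishSpace (closure (range γ)) := isClosed_closure.polishSpace
  have hKne : Nonempty (closure (range γ)) := ⟨⟨γ 0, subset_closure ⟨0, rfl⟩⟩⟩
  have hKx : ∀ κ ∈ closure (range γ), (φ κ).1 = (φ (γ 0)).1 := by
    intro κ hκ
    have hcl : IsClosed {κ : ℕ → ℕ | (φ κ).1 = (φ (γ 0)).1} :=
      isClosed_eq (continuous_fst.comp hφ) continuous_const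
    refine closure_minimal ?_ hcl hκ
    rintro _ ⟨j, rfl⟩
    exact hx j
  obtain ⟨C, hCc, hC⟩ := hc (φ (γ 0)).1
  have hYc : Countable C := hCc.to_subtype
  have hclosed : ∀ c : C, IsClosed {κ : closure (range γ) | τ c.1.1 (φ κ.1).2 = c.1.2} := by
    intro c
    exact isClosed_eq ((hτ _).comp (continuous_snd.comp (hφ.comp continuous_subtype_val)))
      continuous_const
  have hcover : (⋃ c : C, {κ : closure (range γ) | τ c.1.1 (φ κ.1).2 = c.1.2}) = univ := by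
    rw [eq_univ_iff_forall]
    intro κ
    obtain ⟨c, hcC, hce⟩ := hC (φ κ.1).2 (by
      rw [← hKx κ.1 κ.2, ← hφR]
      exact ⟨κ.1, rfl⟩)
    exact mem_iUnion.2 ⟨⟨c, hcC⟩, hce⟩
  obtain ⟨c, hc⟩ := nonempty_interior_of_iUnion_of_closed hclosed hcover
  obtain ⟨κ, hκ⟩ := hc
  obtain ⟨V', hVsub, hVo, hκV⟩ := mem_interior.1 hκ
  obtain ⟨W, hW, rfl⟩ := isOpen_induced_iff.1 hVo
  obtain ⟨_, hbW, ⟨i, rfl⟩⟩ := mem_closure_iff.1 κ.2 W hW hκV
  obtain ⟨m, hm⟩ := cyl_sub hW hbW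
  obtain ⟨j, hj1, hj2⟩ := hγ i m c.1.1
  have hjW : γ j ∈ W := hm _ hj1
  have e1 : τ c.1.1 (φ (γ i)).2 = c.1.2 := hVsub (show (⟨γ i, subset_closure ⟨i, rfl⟩⟩ :
    closure (range γ)) ∈ Subtype.val ⁻¹' W from hbW)
  have e2 : τ c.1.1 (φ (γ j)).2 = c.1.2 := hVsub (show (⟨γ j, subset_closure ⟨j, rfl⟩⟩ :
    closure (range γ)) ∈ Subtype.val ⁻¹' W from hjW)
  exact hj2 (e2.trans e1.symm)

end Pool.Agent.Helper172.HS
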