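import Pool.Agent.Helper172.HS.Sep

set_option autoImplicit false

namespace Pool.Agent.Helper172.HS

open Set MeasureTheory

/-- A Borel graph is contained in the graph of a Borel function. -/
theorem graph_function {X V : Type*} [TopologicalSpace X] [PolishSpace X]
    [MeasurableSpace X] [BorelSpace X] [TopologicalSpace V] [PolishSpace V] [MeasurableSpace V]
    [BorelSpace V] [Nonempty V] {G : Set (X × V)} (hG : MeasurableSet G)
    (h1 : ∀ x v v', (x, v) ∈ G → (x, v') ∈ G → v = v') :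
    ∃ u : X → V, Measurable u ∧ ∀ x v, (x, v) ∈ G → u x = v := by
  classical
  obtain ⟨v0⟩ := ‹Nonempty V›
  refine ⟨fun x => if h : ∃ v, (x, v) ∈ G then h.choose else v0, ?_, ?_⟩
  · have hinj : InjOn (Prod.fst : X × V → X) G := by
      rintro ⟨a, b⟩ h2 ⟨a', b'⟩ h3 hab
      simp only at hab
      subst hab
      rw [h1 _ _ _ h2 h3]
    intro B hB
    have e : (fun x => if h : ∃ v, (x, v) ∈ G then h.choose else v0) ⁻¹' B =
        (Prod.fst '' (G ∩ Prod.snd ⁻¹' B)) ∪ ({x | v0 ∈ B} \ (Prod.fst '' G)) := by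
      ext x
      simp only [mem_preimage]
      by_cases h : ∃ v, (x, v) ∈ G
      · rw [dif_pos h]
        constructor
        · intro hh
          left
          exact ⟨(x, h.choose), ⟨h.choose_spec, hh⟩, rfl⟩
        · rintro (⟨⟨a, b⟩, ⟨h2, h3⟩, h4⟩ | ⟨h2, h3⟩)
          · simp only at h4
            subst h4
            rw [h1 _ _ _ h.choose_spec h2]
            exact h3
          · exfalso
            apply h3
            obtain ⟨v, hv⟩ := h
            exact ⟨(x, v), hv, rfl⟩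
      · rw [dif_neg h]
        constructor
        · intro hh
          right
          refine ⟨hh, ?_⟩
          rintro ⟨⟨a, b⟩, h2, h3⟩
          simp only at h3
          subst h3
          exact h ⟨b, h2⟩
        · rintro (⟨⟨a, b⟩, ⟨h2, h3⟩, h4⟩ | ⟨h2, h3⟩)
          · simp only at h4
            subst h4
            exact absurd ⟨b, h2⟩ h
          · exact h2
    rw [e]
    refine MeasurableSet.union ?_ ((MeasurableSet.const _).diff ?_)
    · exact (hG.inter (measurable_snd hB)).image_of_measurable_injOn measurable_fst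
        (hinj.mono inter_subset_left)
    · exact hG.image_of_measurable_injOn measurable_fst hinj
  · intro x v hv
    have h : ∃ v, (x, v) ∈ G := ⟨v, hv⟩
    beta_reduce
    rw [dif_pos h]
    exact h1 _ _ _ h.choose_spec hv

/-- the tail map -/
def tail (n : ℕ) (w : ℕ → ℝ) : ℕ → ℝ := fun k => w (n + k)

theorem continuous_tail (n : ℕ) : Continuous (tail n) :=
  continuous_pi fun _ => continuous_apply _

theorem tail_tail (n m : ℕ) (w : ℕ → ℝ) : tail n (tail m w) = tail (m + n) w := by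
  funext k
  unfold tail
  rw [Nat.add_assoc]

theorem tail_mono {n m : ℕ} (h : n ≤ m) {w w' : ℕ → ℝ} (hw : tail n w = tail n w') :
    tail m w = tail m w' := by
  obtain ⟨k, rfl⟩ := Nat.exists_eq_add_of_le h
  rw [← tail_tail, ← tail_tail, hw]

/-- eventual equality of real sequences -/
def E1 (w w' : ℕ → ℝ) : Prop := ∃ n, tail n w = tail n w'

theorem E1.refl (w : ℕ → ℝ) : E1 w w := ⟨0, rfl⟩

theorem E1.symm {w w' : ℕ → ℝ} (h : E1 w w') : E1 w' w := by
  obtain ⟨n, hn⟩ := h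
  exact ⟨n, hn.symm⟩

theorem E1.trans {w w' w'' : ℕ → ℝ} (h : E1 w w') (h' : E1 w' w'') : E1 w w'' := by
  obtain ⟨n, hn⟩ := h
  obtain ⟨m, hm⟩ := h'
  exact ⟨max n m, (tail_mono (le_max_left _ _) hn).trans (tail_mono (le_max_right _ _) hm)⟩

theorem measurableSet_E1 : MeasurableSet {p : (ℕ → ℝ) × (ℕ → ℝ) | E1 p.1 p.2} := by
  have e : {p : (ℕ → ℝ) × (ℕ → ℝ) | E1 p.1 p.2} =
      ⋃ n, {p : (ℕ → ℝ) × (ℕ → ℝ) | tail n p.1 = tail n p.2} := by
    ext p
    simp [E1]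
  rw [e]
  exact MeasurableSet.iUnion fun n => (isClosed_eq ((continuous_tail n).comp continuous_fst)
    ((continuous_tail n).comp continuous_snd)).measurableSet

theorem measurableSet_E1_comp {X : Type*} [MeasurableSpace X] {a b : X → ℕ → ℝ}
    (ha : Measurable a) (hb : Measurable b) : MeasurableSet {x | E1 (a x) (b x)} :=
  (ha.prodMk hb) measurableSet_E1

/-- A real-valued code for a finite-set-valued Borel map. -/
theorem code_finite {X V : Type*} [MeasurableSpace X] [MeasurableSpace V] [StandardBorelSpace V]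
    {act : ℕ → Set X} (hact : ∀ k, MeasurableSet (act k)) {h : ℕ → X → V}
    (hh : ∀ k, Measurable (h k)) (hfin : ∀ x, {k | x ∈ act k}.Finite) :
    ∃ c : X → ℝ, Measurable c ∧ ∀ x y, c x = c y ↔
      {v | ∃ k, x ∈ act k ∧ h k x = v} = {v | ∃ k, y ∈ act k ∧ h k y = v} := by
  classical
  have hemb := measurableEmbedding_embeddingReal V
  obtain ⟨e, he⟩ : ∃ e : V → ℝ, MeasurableEmbedding e := ⟨_, hemb⟩
  obtain ⟨χ, hχ⟩ : ∃ χ : X → ℚ × ℚ → Prop,
      ∀ x q, χ x q ↔ ∃ k, x ∈ act k ∧ (q.1 : ℝ) < e (h k x) ∧ e (h k x) < q.2 :=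
    ⟨fun x q => ∃ k, x ∈ act k ∧ (q.1 : ℝ) < e (h k x) ∧ e (h k x) < q.2, fun _ _ => Iff.rfl⟩
  have hχm : Measurable χ := by
    refine measurable_pi_iff.2 fun q => ?_
    refine measurableSet_setOfPred.1 ?_
    have e1 : {x | χ x q} = ⋃ k, (act k ∩ (fun x => e (h k x)) ⁻¹' (Ioo (q.1 : ℝ) q.2)) := by
      ext x
      simp only [mem_ofPred_eq, mem_iUnion, hχ]
      rfl
    rw [e1]
    exact MeasurableSet.iUnion fun k => (hact k).inter
      ((he.measurable.comp (hh k)) measurableSet_Ioo)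
  have key : ∀ x y, (∀ q, χ x q → χ y q) →
      {v | ∃ k, x ∈ act k ∧ h k x = v} ⊆ {v | ∃ k, y ∈ act k ∧ h k y = v} := by
    rintro x y hxy v ⟨k, hk, rfl⟩
    by_contra hcon
    have hS : ({r | ∃ j, y ∈ act j ∧ e (h j y) = r} : Set ℝ).Finite := by
      have : ({r | ∃ j, y ∈ act j ∧ e (h j y) = r} : Set ℝ) =
          (fun j => e (h j y)) '' {j | y ∈ act j} := by
        ext r
        rfl
      rw [this]
      exact (hfin y).image _
    have hnot : e (h k x) ∈ ({r | ∃ j, y ∈ act j ∧ e (h j y) = r} : Set ℝ)ᶜ := by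
      rintro ⟨j, hj, hje⟩
      exact hcon ⟨j, hj, he.injective hje⟩
    obtain ⟨U, hU, hxU, hUS⟩ := Real.isTopologicalBasis_Ioo_rat.exists_subset_of_mem_open hnot
      hS.isClosed.isOpen_compl
    simp only [mem_iUnion, mem_singleton_iff] at hU
    obtain ⟨a, b, hab, rfl⟩ := hU
    have h2 : χ x (a, b) := (hχ x (a, b)).2 ⟨k, hk, hxU.1, hxU.2⟩
    obtain ⟨j, hj, hj1, hj2⟩ := (hχ y (a, b)).1 (hxy _ h2)
    exact hUS ⟨hj1, hj2⟩ ⟨j, hj, rfl⟩
  have hemb2 := measurableEmbedding_embeddingReal (ℚ × ℚ → Prop)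
  refine ⟨fun x => embeddingReal (ℚ × ℚ → Prop) (χ x), hemb2.measurable.comp hχm, ?_⟩
  intro x y
  constructor
  · intro hxy
    have h3 : χ x = χ y := hemb2.injective hxy
    exact subset_antisymm (key x y fun q hq => by rwa [← h3]) (key y x fun q hq => by rwa [h3])
  · intro hxy
    have h3 : χ x = χ y := by
      funext q
      refine propext ?_
      rw [hχ, hχ]
      constructor
      · rintro ⟨k, hk, h4⟩
        have : h k x ∈ {v | ∃ k, x ∈ act k ∧ h k x = v} := ⟨k, hk, rfl⟩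
        rw [hxy] at this
        obtain ⟨j, hj, hje⟩ := this
        refine ⟨j, hj, ?_⟩
        rw [hje]
        exact h4
      · rintro ⟨k, hk, h4⟩
        have : h k y ∈ {v | ∃ k, y ∈ act k ∧ h k y = v} := ⟨k, hk, rfl⟩
        rw [← hxy] at this
        obtain ⟨j, hj, hje⟩ := this
        refine ⟨j, hj, ?_⟩
        rw [hje]
        exact h4
    show embeddingReal (ℚ × ℚ → Prop) (χ x) = embeddingReal (ℚ × ℚ → Prop) (χ y)
    rw [h3]

/-- The main theorem. -/
theorem main {X : Type*} [MeasurableSpace X] [StandardBorelSpace X] (f : ℕ → X → ℝ)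
    (F : X → X → Prop) (hf : ∀ n, Measurable (f n))
    (hfm : ∀ n x y, f n x = f n y → f (n + 1) x = f (n + 1) y)
    (hF : Equivalence F) (hFm : MeasurableSet {p : X × X | F p.1 p.2})
    (hEF : ∀ x y, (∃ n, f n x = f n y) → F x y)
    (hfin : ∀ x, ∃ s : Finset X, ∀ y, F x y → ∃ z ∈ s, ∃ n, f n z = f n y) :
    ∃ g : ℕ → X → ℝ, (∀ n, Measurable (g n)) ∧
      (∀ n x y, g n x = g n y → g (n + 1) x = g (n + 1) y) ∧
      ∀ x y, F x y ↔ ∃ n, g n x = g n y := by
  classical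
  let := upgradeStandardBorel X
  obtain ⟨g, hg⟩ : ∃ g : X → ℕ → ℝ, ∀ x n, g x n = f n x := ⟨fun x n => f n x, fun _ _ => rfl⟩
  have hgm : Measurable g := by
    refine measurable_pi_iff.2 fun n => ?_
    have e : (fun x => g x n) = f n := by
      funext x
      exact hg x n
    rw [e]
    exact hf n
  have hfmono : ∀ n x y, f n x = f n y → ∀ k, f (n + k) x = f (n + k) y := by
    intro n x y h k
    induction k with
    | zero => exact h
    | succ k ih => exact hfm _ _ _ ih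
  have hEg : ∀ x y, (∃ n, f n x = f n y) ↔ E1 (g x) (g y) := by
    intro x y
    constructor
    · rintro ⟨n, hn⟩
      refine ⟨n, ?_⟩
      funext k
      unfold tail
      rw [hg, hg]
      exact hfmono n x y hn k
    · rintro ⟨n, hn⟩
      refine ⟨n, ?_⟩
      have := congrFun hn 0
      unfold tail at this
      rw [hg, hg] at this
      exact this
  -- the saturated analytic set
  obtain ⟨P, hP⟩ : ∃ P : Set (X × (ℕ → ℝ)), ∀ x w, (x, w) ∈ P ↔ ∃ y, F x y ∧ E1 w (g y) :=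
    ⟨{p | ∃ y, F p.1 y ∧ E1 p.2 (g y)}, fun _ _ => Iff.rfl⟩
  have hPa : AnalyticSet P := by
    have h1 : MeasurableSet ({q : (X × (ℕ → ℝ)) × X | F q.1.1 q.2} ∩
        {q : (X × (ℕ → ℝ)) × X | E1 q.1.2 (g q.2)}) := by
      refine MeasurableSet.inter ?_ ?_
      · exact ((measurable_fst.comp measurable_fst).prodMk measurable_snd) hFm
      · exact measurableSet_E1_comp (measurable_snd.comp measurable_fst)
          (hgm.comp measurable_snd)
    have h2 := h1.analyticSet.image_of_continuous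
      (continuous_fst : Continuous (Prod.fst : (X × (ℕ → ℝ)) × X → X × (ℕ → ℝ)))
    convert h2 using 1
    ext ⟨x, w⟩
    rw [hP]
    constructor
    · rintro ⟨y, h3, h4⟩
      exact ⟨((x, w), y), ⟨h3, h4⟩, rfl⟩
    · rintro ⟨⟨⟨x', w'⟩, y⟩, ⟨h3, h4⟩, h5⟩
      simp only [Prod.mk.injEq] at h5
      obtain ⟨rfl, rfl⟩ := h5
      exact ⟨y, h3, h4⟩
  have hPfin : ∀ x, ∃ s : Finset X, ∀ w, (x, w) ∈ P → ∃ z ∈ s, F x z ∧ E1 w (g z) := by
    intro x
    obtain ⟨s, hs⟩ := hfin x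
    refine ⟨s, fun w hw => ?_⟩
    obtain ⟨y, h1, h2⟩ := (hP x w).1 hw
    obtain ⟨z, hz, h3⟩ := hs y h1
    have h4 : F z y := hEF _ _ h3
    exact ⟨z, hz, hF.trans h1 (hF.symm h4), h2.trans ((hEg z y).1 h3).symm⟩
  have hcov : Small tail P := by
    refine analytic_cover continuous_tail hPa fun x => ?_
    obtain ⟨s, hs⟩ := hPfin x
    refine ⟨⋃ n : ℕ, ⋃ z ∈ s, {(n, tail n (g z))}, ?_, ?_⟩
    · exact countable_iUnion fun n => (s.countable_toSet).biUnion fun z _ => countable_singleton _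
    · intro w hw
      obtain ⟨z, hz, _, n, hn⟩ := hs w hw
      refine ⟨(n, tail n (g z)), ?_, hn⟩
      simp only [mem_iUnion, mem_singleton_iff]
      exact ⟨n, z, hz, rfl⟩
  obtain ⟨G, m, hG1, hG2, hG3⟩ := hcov
  have hu : ∀ k, ∃ u : X → ℕ → ℝ, Measurable u ∧ ∀ x v, (x, v) ∈ G k → u x = v :=
    fun k => graph_function (hG1 k) (hG2 k)
  choose u hum hu using hu
  obtain ⟨d, hd⟩ : ∃ d : ℕ → X → ℕ → ℝ, ∀ k x j, d k x j = if j < m k then 0 else u k x (j - m k) :=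
    ⟨fun k x j => if j < m k then 0 else u k x (j - m k), fun _ _ _ => rfl⟩
  have hdm : ∀ k, Measurable (d k) := by
    intro k
    refine measurable_pi_iff.2 fun j => ?_
    have e : (fun x => d k x j) = fun x => if j < m k then 0 else u k x (j - m k) := by
      funext x
      exact hd k x j
    rw [e]
    split_ifs
    · exact measurable_const
    · exact (measurable_pi_apply _).comp (hum k)
  have hdt : ∀ k x, tail (m k) (d k x) = u k x := by
    intro k x
    funext j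
    unfold tail
    rw [hd, if_neg (by omega), Nat.add_sub_cancel_left]
  have hPd : ∀ x w, (x, w) ∈ P → ∃ k, E1 w (d k x) := by
    intro x w hw
    obtain ⟨k, hk⟩ := hG3 _ hw
    refine ⟨k, m k, ?_⟩
    rw [hdt, hu k _ _ hk]
  -- bounding the number of classes in a Borel way
  obtain ⟨A, hA⟩ : ∃ A : ℕ → Set X, ∀ N x, x ∈ A N ↔
      ∃ w, (x, w) ∈ P ∧ ∀ k < N, ¬ E1 w (d k x) :=
    ⟨fun N => {x | ∃ w, (x, w) ∈ P ∧ ∀ k < N, ¬ E1 w (d k x)}, fun _ _ => Iff.rfl⟩
  have hAa : ∀ N, AnalyticSet (A N) := by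
    intro N
    have h1 : MeasurableSet {p : X × (ℕ → ℝ) | ∀ k < N, ¬ E1 p.2 (d k p.1)} := by
      have e : {p : X × (ℕ → ℝ) | ∀ k < N, ¬ E1 p.2 (d k p.1)} =
          ⋂ k, ⋂ (_ : k < N), {p : X × (ℕ → ℝ) | E1 p.2 (d k p.1)}ᶜ := by
        ext p
        simp
      rw [e]
      exact MeasurableSet.iInter fun k => MeasurableSet.iInter fun _ =>
        (measurableSet_E1_comp measurable_snd ((hdm k).comp measurable_fst)).compl
    have h2 := (analytic_inter hPa h1.analyticSet).image_of_continuous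
      (continuous_fst : Continuous (Prod.fst : X × (ℕ → ℝ) → X))
    convert h2 using 1
    ext x
    rw [hA]
    constructor
    · rintro ⟨w, h3, h4⟩
      exact ⟨(x, w), ⟨h3, h4⟩, rfl⟩
    · rintro ⟨⟨x', w⟩, ⟨h3, h4⟩, h5⟩
      simp only at h5
      subst h5
      exact ⟨w, h3, h4⟩
  have hA0 : ∀ x, ∃ N, x ∉ A N := by
    intro x
    obtain ⟨s, hs⟩ := hPfin x
    have h1 : ∀ z, ∃ k, F x z → E1 (g z) (d k x) := by
      intro z
      by_cases hz : F x z
      · obtain ⟨k, hk⟩ := hPd x (g z) ((hP _ _).2 ⟨z, hz, E1.refl _⟩)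
        exact ⟨k, fun _ => hk⟩
      · exact ⟨0, fun h => absurd h hz⟩
    choose κ hκ using h1
    refine ⟨s.sup κ + 1, ?_⟩
    rw [hA]
    rintro ⟨w, h2, h3⟩
    obtain ⟨z, hz, h4, h5⟩ := hs w h2
    exact h3 (κ z) (Nat.lt_succ_of_le (Finset.le_sup hz)) (h5.trans (hκ z h4))
  obtain ⟨B, hB1, hB2, hB3⟩ := novikov hAa hA0
  obtain ⟨L, hL⟩ : ∃ L : ℕ → Set X, ∀ k x, x ∈ L k ↔ ∀ j ≤ k, x ∈ B j :=
    ⟨fun k => {x | ∀ j ≤ k, x ∈ B j}, fun _ _ => Iff.rfl⟩
  have hLm : ∀ k, MeasurableSet (L k) := by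
    intro k
    have e : L k = ⋂ j, ⋂ (_ : j ≤ k), B j := by
      ext x
      rw [hL]
      simp
    rw [e]
    exact MeasurableSet.iInter fun j => MeasurableSet.iInter fun _ => hB1 j
  have hLfin : ∀ x, ∃ N, (∀ k, x ∈ L k → k < N) ∧
      ∀ w, (x, w) ∈ P → ∃ k, x ∈ L k ∧ E1 w (d k x) := by
    intro x
    have hex := hB3 x
    refine ⟨Nat.find hex, ?_, ?_⟩
    · intro k hk
      by_contra hcon
      exact Nat.find_spec hex ((hL k x).1 hk _ (not_lt.1 hcon))
    · intro w hw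
      have h1 : x ∉ A (Nat.find hex) := fun h => Nat.find_spec hex (hB2 _ h)
      rw [hA] at h1
      push Not at h1
      obtain ⟨k, hk1, hk2⟩ := h1 w hw
      refine ⟨k, ?_, hk2⟩
      rw [hL]
      intro j hj
      by_contra hcon
      exact absurd (Nat.find_min' hex hcon) (by omega)
  -- the coanalytic complement
  obtain ⟨C, hC⟩ : ∃ C : Set (X × (ℕ → ℝ)), ∀ x w, (x, w) ∈ C ↔
      ∃ y, (F x y ∧ ∀ k, y ∈ L k → ¬ E1 w (d k y)) ∨ (E1 w (g y) ∧ ¬ F x y) :=
    ⟨{p | ∃ y, (F p.1 y ∧ ∀ k, y ∈ L k → ¬ E1 p.2 (d k y)) ∨ (E1 p.2 (g y) ∧ ¬ F p.1 y)},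
      fun _ _ => Iff.rfl⟩
  have hCa : AnalyticSet C := by
    have hFm' : MeasurableSet {q : (X × (ℕ → ℝ)) × X | F q.1.1 q.2} :=
      ((measurable_fst.comp measurable_fst).prodMk measurable_snd) hFm
    have h1 : MeasurableSet {q : (X × (ℕ → ℝ)) × X |
        (F q.1.1 q.2 ∧ ∀ k, q.2 ∈ L k → ¬ E1 q.1.2 (d k q.2)) ∨
        (E1 q.1.2 (g q.2) ∧ ¬ F q.1.1 q.2)} := by
      have e : {q : (X × (ℕ → ℝ)) × X |
          (F q.1.1 q.2 ∧ ∀ k, q.2 ∈ L k → ¬ E1 q.1.2 (d k q.2)) ∨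
          (E1 q.1.2 (g q.2) ∧ ¬ F q.1.1 q.2)} =
          ({q : (X × (ℕ → ℝ)) × X | F q.1.1 q.2} ∩
            ⋂ k, ((Prod.snd ⁻¹' (L k))ᶜ ∪
              {q : (X × (ℕ → ℝ)) × X | E1 q.1.2 (d k q.2)}ᶜ)) ∪
          ({q : (X × (ℕ → ℝ)) × X | E1 q.1.2 (g q.2)} ∩
            {q : (X × (ℕ → ℝ)) × X | F q.1.1 q.2}ᶜ) := by
        ext q
        simp only [mem_ofPred_eq, mem_union, mem_inter_iff, mem_iInter, mem_compl_iff,
          mem_preimage, imp_iff_not_or]
      rw [e]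
      refine MeasurableSet.union (hFm'.inter (MeasurableSet.iInter fun k => ?_)) ?_
      · exact (measurable_snd (hLm k)).compl.union
          (measurableSet_E1_comp (measurable_snd.comp measurable_fst)
            ((hdm k).comp measurable_snd)).compl
      · exact (measurableSet_E1_comp (measurable_snd.comp measurable_fst)
          (hgm.comp measurable_snd)).inter hFm'.compl
    have h2 := h1.analyticSet.image_of_continuous
      (continuous_fst : Continuous (Prod.fst : (X × (ℕ → ℝ)) × X → X × (ℕ → ℝ)))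
    convert h2 using 1
    ext ⟨x, w⟩
    rw [hC]
    constructor
    · rintro ⟨y, h3⟩
      exact ⟨((x, w), y), h3, rfl⟩
    · rintro ⟨⟨⟨x', w'⟩, y⟩, h3, h5⟩
      simp only [Prod.mk.injEq] at h5
      obtain ⟨rfl, rfl⟩ := h5
      exact ⟨y, h3⟩
  have hPC : Disjoint P C := by
    rw [Set.disjoint_left]
    rintro ⟨x, w⟩ h1 h2
    obtain ⟨y, hy1, hy2⟩ := (hP _ _).1 h1
    obtain ⟨z, ⟨h3, h4⟩ | ⟨h3, h4⟩⟩ := (hC _ _).1 h2
    · have h5 : (z, w) ∈ P := (hP _ _).2 ⟨y, hF.trans (hF.symm h3) hy1, hy2⟩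
      obtain ⟨N, _, hN⟩ := hLfin z
      obtain ⟨k, hk1, hk2⟩ := hN w h5
      exact h4 k hk1 hk2
    · apply h4
      exact hF.trans hy1 (hEF _ _ ((hEg _ _).2 (hy2.symm.trans h3)))
  obtain ⟨r, hr⟩ : ∃ r : X × (ℕ → ℝ) → X × (ℕ → ℝ) → Prop, ∀ p q, r p q ↔
      F p.1 q.1 ∧ E1 p.2 q.2 := ⟨fun p q => F p.1 q.1 ∧ E1 p.2 q.2, fun _ _ => Iff.rfl⟩
  have hrA : AnalyticSet {p : (X × (ℕ → ℝ)) × (X × (ℕ → ℝ)) | r p.1 p.2} := by
    have e : {p : (X × (ℕ → ℝ)) × (X × (ℕ → ℝ)) | r p.1 p.2} =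
        {p : (X × (ℕ → ℝ)) × (X × (ℕ → ℝ)) | F p.1.1 p.2.1} ∩
        {p : (X × (ℕ → ℝ)) × (X × (ℕ → ℝ)) | E1 p.1.2 p.2.2} := by
      ext p
      simp only [mem_ofPred_eq, mem_inter_iff, hr]
    rw [e]
    refine MeasurableSet.analyticSet (MeasurableSet.inter ?_ ?_)
    · exact ((measurable_fst.comp measurable_fst).prodMk
        (measurable_fst.comp measurable_snd)) hFm
    · exact measurableSet_E1_comp (measurable_snd.comp measurable_fst)
        (measurable_snd.comp measurable_snd)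
  obtain ⟨Q, hQm, hPQ, hQC, hQi⟩ := invariant_sep hrA hPa hCa hPC (by
    rintro ⟨x, w⟩ ⟨x', w'⟩ h1 h2
    rw [hr] at h1
    obtain ⟨h3, h4⟩ := h1
    simp only at h3 h4
    rw [hC] at h2 ⊢
    obtain ⟨y, ⟨h5, h6⟩ | ⟨h5, h6⟩⟩ := h2
    · exact ⟨y, Or.inl ⟨hF.trans h3 h5, fun k hk h7 => h6 k hk (h4.symm.trans h7)⟩⟩
    · exact ⟨y, Or.inr ⟨h4.trans h5, fun h7 => h6 (hF.trans (hF.symm h3) h7)⟩⟩)
  -- the finite sets of representatives
  obtain ⟨act, hact⟩ : ∃ act : ℕ → Set X, ∀ k x, x ∈ act k ↔ x ∈ L k ∧ (x, d k x) ∈ Q :=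
    ⟨fun k => {x | x ∈ L k ∧ (x, d k x) ∈ Q}, fun _ _ => Iff.rfl⟩
  have hactm : ∀ k, MeasurableSet (act k) := by
    intro k
    have e : act k = L k ∩ (fun x => (x, d k x)) ⁻¹' Q := by
      ext x
      rw [hact]
      rfl
    rw [e]
    exact (hLm k).inter ((measurable_id.prodMk (hdm k)) hQm)
  have hactfin : ∀ x, {k | x ∈ act k}.Finite := by
    intro x
    obtain ⟨N, hN, _⟩ := hLfin x
    refine (Set.finite_lt_nat N).subset ?_
    intro k hk
    exact hN k ((hact k x).1 hk).1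
  -- every point of `Q` over `x` is represented
  have hrep : ∀ x w, (x, w) ∈ Q → ∃ k, x ∈ act k ∧ E1 w (d k x) := by
    intro x w hw
    have h1 : (x, w) ∉ C := fun h => Set.disjoint_left.1 hQC hw h
    rw [hC] at h1
    push Not at h1
    obtain ⟨k, hk1, hk2⟩ := (h1 x).1 (hF.refl x)
    refine ⟨k, (hact k x).2 ⟨hk1, ?_⟩, hk2⟩
    exact hQi _ _ ((hr _ _).2 ⟨hF.refl x, hk2⟩) hw
  have hcode : ∀ n, ∃ c : X → ℝ, Measurable c ∧ ∀ x y, c x = c y ↔
      {v | ∃ k, x ∈ act k ∧ tail n (d k x) = v} = {v | ∃ k, y ∈ act k ∧ tail n (d k y) = v} :=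
    fun n => code_finite hactm (fun k => (continuous_tail n).measurable.comp (hdm k)) hactfin
  choose c hcm hc using hcode
  have hsub : ∀ n x y, (∀ k, x ∈ act k → ∃ j, y ∈ act j ∧ tail n (d k x) = tail n (d j y)) →
      {v | ∃ k, x ∈ act k ∧ tail n (d k x) = v} ⊆ {v | ∃ k, y ∈ act k ∧ tail n (d k y) = v} := by
    rintro n x y h v ⟨k, hk, rfl⟩
    obtain ⟨j, hj, hje⟩ := h k hk
    exact ⟨j, hj, hje.symm⟩
  have hsub' : ∀ n x y,
      {v | ∃ k, x ∈ act k ∧ tail n (d k x) = v} ⊆ {v | ∃ k, y ∈ act k ∧ tail n (d k y) = v} →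
      ∀ k, x ∈ act k → ∃ j, y ∈ act j ∧ tail n (d k x) = tail n (d j y) := by
    intro n x y h k hk
    obtain ⟨j, hj, hje⟩ := h ⟨k, hk, rfl⟩
    exact ⟨j, hj, hje.symm⟩
  refine ⟨c, hcm, ?_, ?_⟩
  · intro n x y hxy
    rw [hc] at hxy ⊢
    refine subset_antisymm (hsub _ _ _ fun k hk => ?_) (hsub _ _ _ fun k hk => ?_)
    · obtain ⟨j, hj, hje⟩ := hsub' _ _ _ hxy.subset k hk
      exact ⟨j, hj, tail_mono (Nat.le_succ n) hje⟩
    · obtain ⟨j, hj, hje⟩ := hsub' _ _ _ hxy.symm.subset k hk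
      exact ⟨j, hj, tail_mono (Nat.le_succ n) hje⟩
  · intro x y
    constructor
    · intro hxy
      have hone : ∀ x y, F x y → ∃ N, ∀ n, N ≤ n → ∀ k, x ∈ act k →
          ∃ j, y ∈ act j ∧ tail n (d k x) = tail n (d j y) := by
        intro x y hxy
        have h1 : ∀ k, ∃ n, x ∈ act k → ∃ j, y ∈ act j ∧ tail n (d k x) = tail n (d j y) := by
          intro k
          by_cases hk : x ∈ act k
          · have h2 : (y, d k x) ∈ Q :=
              hQi (x, d k x) (y, d k x) ((hr _ _).2 ⟨hxy, E1.refl _⟩) ((hact k x).1 hk).2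
            obtain ⟨j, hj, n, hn⟩ := hrep y _ h2
            exact ⟨n, fun _ => ⟨j, hj, hn⟩⟩
          · exact ⟨0, fun h => absurd h hk⟩
        choose ν hν using h1
        refine ⟨(hactfin x).toFinset.sup ν, ?_⟩
        intro n hn k hk
        obtain ⟨j, hj, hje⟩ := hν k hk
        have h3 : ν k ≤ n := (Finset.le_sup ((hactfin x).mem_toFinset.2 hk)).trans hn
        exact ⟨j, hj, tail_mono h3 hje⟩
      obtain ⟨N, hN⟩ := hone x y hxy
      obtain ⟨M, hM⟩ := hone y x (hF.symm hxy)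
      refine ⟨max N M, ?_⟩
      rw [hc]
      exact subset_antisymm (hsub _ _ _ (hN _ (le_max_left _ _)))
        (hsub _ _ _ (hM _ (le_max_right _ _)))
    · rintro ⟨n, hn⟩
      rw [hc] at hn
      have h1 : (x, g x) ∈ Q := hPQ ((hP _ _).2 ⟨x, hF.refl x, E1.refl _⟩)
      obtain ⟨k, hk, hke⟩ := hrep x _ h1
      obtain ⟨j, hj, hje⟩ := hsub' _ _ _ hn.subset k hk
      have h2 : (y, g x) ∈ Q := by
        refine hQi _ _ ((hr _ _).2 ⟨hF.refl y, ?_⟩) ((hact j y).1 hj).2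
        exact (hke.trans ⟨n, hje⟩).symm
      have h3 : (y, g x) ∉ C := fun h => Set.disjoint_left.1 hQC h2 h
      rw [hC] at h3
      push Not at h3
      exact hF.symm ((h3 x).2 (E1.refl _))

end Pool.Agent.Helper172.HS
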