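import Pool.Agent.Helper172.HS.Cover

set_option autoImplicit false

namespace Pool.Agent.Helper172.HS

open Set MeasureTheory

/-- A sequence of sets can be enlarged to a sequence of Borel sets with empty intersection. -/
def Sep {X : Type*} [MeasurableSpace X] (D : ℕ → Set X) : Prop :=
  ∃ B : ℕ → Set X, (∀ n, MeasurableSet (B n)) ∧ (∀ n, D n ⊆ B n) ∧ ∀ x, ∃ n, x ∉ B n

theorem sep_mono {X : Type*} [MeasurableSpace X] {D D' : ℕ → Set X} (h : ∀ n, D n ⊆ D' n)
    (hS : Sep D') : Sep D := by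
  obtain ⟨B, h1, h2, h3⟩ := hS
  exact ⟨B, h1, fun n => (h n).trans (h2 n), h3⟩

theorem sep_split {X : Type*} [MeasurableSpace X] {D : ℕ → Set X} (k : ℕ)
    {D' : ℕ → ℕ → Set X} (h1 : D k ⊆ ⋃ d, D' d k) (h2 : ∀ d n, n ≠ k → D n ⊆ D' d n)
    (h : ∀ d, Sep (D' d)) : Sep D := by
  classical
  choose B h3 h4 h5 using h
  refine ⟨fun n => if n = k then ⋃ d, B d k else ⋂ d, B d n, ?_, ?_, ?_⟩
  · intro n
    beta_reduce
    split_ifs
    · exact MeasurableSet.iUnion fun d => h3 d k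
    · exact MeasurableSet.iInter fun d => h3 d n
  · intro n
    beta_reduce
    split_ifs with hn
    · subst hn
      intro x hx
      obtain ⟨d, hd⟩ := mem_iUnion.1 (h1 hx)
      exact mem_iUnion.2 ⟨d, h4 d n hd⟩
    · intro x hx
      exact mem_iInter.2 fun d => h4 d n (h2 d n hn hx)
  · intro x
    by_contra hcon
    push Not at hcon
    have hk := hcon k
    rw [if_pos rfl] at hk
    obtain ⟨d, hd⟩ := mem_iUnion.1 hk
    obtain ⟨n, hn⟩ := h5 d x
    have h6 := hcon n
    by_cases hnk : n = k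
    · subst hnk
      exact hn hd
    · rw [if_neg hnk] at h6
      exact hn (mem_iInter.1 h6 d)

/-- the box of sequences whose digits of pair-index below `t` are prescribed by `b` -/
def box (t : ℕ) (b : ℕ → ℕ) (N : ℕ) : Set (ℕ → ℕ) :=
  {z | ∀ l, Nat.pair N l < t → z l = b (Nat.pair N l)}

theorem box_congr {t : ℕ} {b b' : ℕ → ℕ} (h : ∀ i < t, b i = b' i) (N : ℕ) :
    box t b N = box t b' N := by
  ext z
  unfold box
  simp only [mem_ofPred_eq]
  constructor
  · intro hz l hl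
    rw [hz l hl, h _ hl]
  · intro hz l hl
    rw [hz l hl, h _ hl]

theorem box_succ_ne {t : ℕ} {b : ℕ → ℕ} {N d : ℕ} (hN : N ≠ (Nat.unpair t).1) :
    box t b N ⊆ box (t + 1) (Function.update b t d) N := by
  intro z hz l hl
  have hne : Nat.pair N l ≠ t := by
    intro h
    apply hN
    rw [← h, Nat.unpair_pair]
  rw [Function.update_of_ne hne]
  exact hz l (by omega)

theorem box_succ_eq {t : ℕ} {b : ℕ → ℕ} {z : ℕ → ℕ} (hz : z ∈ box t b (Nat.unpair t).1) :
    z ∈ box (t + 1) (Function.update b t (z (Nat.unpair t).2)) (Nat.unpair t).1 := by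
  intro l hl
  by_cases h : Nat.pair (Nat.unpair t).1 l = t
  · rw [h, Function.update_self]
    have : l = (Nat.unpair t).2 := by
      conv_rhs => rw [← h]
      rw [Nat.unpair_pair]
    rw [← this]
  · rw [Function.update_of_ne h]
    exact hz l (by omega)

/-- Novikov's separation theorem. -/
theorem novikov {X : Type*} [TopologicalSpace X] [T2Space X] [MeasurableSpace X]
    [OpensMeasurableSpace X] {A : ℕ → Set X} (hA : ∀ n, AnalyticSet (A n))
    (h0 : ∀ x, ∃ n, x ∉ A n) : Sep A := by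
  classical
  by_cases hE : ∃ n, A n = ∅
  · obtain ⟨n, hn⟩ := hE
    refine ⟨fun k => if k = n then ∅ else univ, ?_, ?_, fun x => ⟨n, by simp⟩⟩
    · intro k
      beta_reduce
      split_ifs
      · exact MeasurableSet.empty
      · exact MeasurableSet.univ
    · intro k
      beta_reduce
      split_ifs with hk
      · rw [hk, hn]
      · exact subset_univ _
  push Not at hE
  have hψ : ∀ n, ∃ ψ : (ℕ → ℕ) → X, Continuous ψ ∧ range ψ = A n := by
    intro n
    have h := hA n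
    rw [AnalyticSet] at h
    rcases h with h | h
    · have h1 := hE n
      rw [h] at h1
      simp at h1
    · exact h
  choose ψ hψc hψr using hψ
  by_contra hS
  have hstart : ¬ Sep (fun N => ψ N '' box 0 0 N) := by
    intro h
    apply hS
    refine sep_mono ?_ h
    intro n
    rw [← hψr]
    rintro _ ⟨z, rfl⟩
    exact ⟨z, fun l hl => absurd hl (by omega), rfl⟩
  have hstep : ∀ t b, ¬ Sep (fun N => ψ N '' box t b N) →
      ∃ d, ¬ Sep (fun N => ψ N '' box (t + 1) (Function.update b t d) N) := by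
    intro t b h
    by_contra hcon
    push Not at hcon
    apply h
    refine sep_split (Nat.unpair t).1
      (D' := fun d N => ψ N '' box (t + 1) (Function.update b t d) N) ?_ ?_ hcon
    · rintro _ ⟨z, hz, rfl⟩
      exact mem_iUnion.2 ⟨_, ⟨z, box_succ_eq hz, rfl⟩⟩
    · intro d n hn
      exact image_mono (box_succ_ne hn)
  obtain ⟨st, hst0, hst⟩ : ∃ st : (t : ℕ) → {b : ℕ → ℕ // ¬ Sep (fun N => ψ N '' box t b N)},
      True ∧ ∀ t, ∃ d, (st (t + 1)).1 = Function.update (st t).1 t d := by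
    choose dd hdd using hstep
    refine ⟨fun t => Nat.rec ⟨0, hstart⟩
      (fun t b => ⟨Function.update b.1 t (dd t b.1 b.2), hdd t b.1 b.2⟩) t, trivial, ?_⟩
    intro t
    exact ⟨_, rfl⟩
  have hag : ∀ t, ∀ i < t, (st t).1 i = (st (i + 1)).1 i := by
    intro t
    induction t with
    | zero => intro i hi; omega
    | succ t ih =>
      intro i hi
      rcases Nat.lt_succ_iff_lt_or_eq.1 hi with h | h
      · obtain ⟨d, hd⟩ := hst t
        rw [hd, Function.update_of_ne (by omega)]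
        exact ih i h
      · rw [h]
  obtain ⟨b, hb⟩ : ∃ b : ℕ → ℕ, ∀ i, b i = (st (i + 1)).1 i := ⟨_, fun _ => rfl⟩
  have hbad : ∀ t, ¬ Sep (fun N => ψ N '' box t b N) := by
    intro t
    have h := (st t).2
    have e : (fun N => ψ N '' box t b N) = (fun N => ψ N '' box t (st t).1 N) := by
      funext N
      rw [box_congr (b := b) (b' := (st t).1)]
      intro i hi
      rw [hb, hag t i hi]
    rw [e]
    exact h
  obtain ⟨z, hz⟩ : ∃ z : ℕ → ℕ → ℕ, ∀ N l, z N l = b (Nat.pair N l) := ⟨_, fun _ _ => rfl⟩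
  obtain ⟨N, hN⟩ : ∃ N, ψ N (z N) ≠ ψ 0 (z 0) := by
    by_contra hcon
    push Not at hcon
    obtain ⟨n, hn⟩ := h0 (ψ 0 (z 0))
    apply hn
    rw [← hcon n, ← hψr]
    exact ⟨_, rfl⟩
  obtain ⟨U, V, hU, hV, hNU, h0V, hUV⟩ := t2_separation hN
  obtain ⟨m, hm⟩ := cyl_sub (hU.preimage (hψc N)) (a := z N) hNU
  obtain ⟨m', hm'⟩ := cyl_sub (hV.preimage (hψc 0)) (a := z 0) h0V
  obtain ⟨t, ht1, ht2⟩ : ∃ t, (∀ l < m, Nat.pair N l < t) ∧ (∀ l < m', Nat.pair 0 l < t) := by
    refine ⟨((Finset.range m).sup fun l => Nat.pair N l) + 1 +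
      (((Finset.range m').sup fun l => Nat.pair 0 l) + 1), ?_, ?_⟩
    · intro l hl
      have := Finset.le_sup (f := fun l => Nat.pair N l) (Finset.mem_range.2 hl)
      omega
    · intro l hl
      have := Finset.le_sup (f := fun l => Nat.pair 0 l) (Finset.mem_range.2 hl)
      omega
  apply hbad t
  have hN0 : N ≠ 0 := by
    rintro rfl
    exact hN rfl
  refine ⟨fun k => if k = N then U else if k = 0 then V else univ, ?_, ?_, ?_⟩
  · intro k
    beta_reduce
    split_ifs
    · exact hU.measurableSet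
    · exact hV.measurableSet
    · exact MeasurableSet.univ
  · intro k
    beta_reduce
    split_ifs with h1 h2
    · subst h1
      rintro _ ⟨y, hy, rfl⟩
      apply hm
      intro l hl
      rw [hy l (ht1 l hl), hz]
    · subst h2
      rintro _ ⟨y, hy, rfl⟩
      apply hm'
      intro l hl
      rw [hy l (ht2 l hl), hz]
    · exact subset_univ _
  · intro x
    by_cases hx : x ∈ U
    · refine ⟨0, ?_⟩
      beta_reduce
      rw [if_neg hN0.symm, if_pos rfl]
      exact Set.disjoint_left.1 hUV hx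
    · refine ⟨N, ?_⟩
      beta_reduce
      rw [if_pos rfl]
      exact hx

/-- Invariant separation. -/
theorem invariant_sep {Z : Type*} [TopologicalSpace Z] [PolishSpace Z] [MeasurableSpace Z]
    [BorelSpace Z] {r : Z → Z → Prop}
    (hrA : AnalyticSet {p : Z × Z | r p.1 p.2}) {A C : Set Z} (hA : AnalyticSet A)
    (hC : AnalyticSet C) (hd : Disjoint A C) (hCi : ∀ z z', r z z' → z' ∈ C → z ∈ C) :
    ∃ B : Set Z, MeasurableSet B ∧ A ⊆ B ∧ Disjoint B C ∧
      ∀ z z', r z z' → z ∈ B → z' ∈ B := by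
  classical
  have hsat : ∀ D : {D : Set Z // MeasurableSet D ∧ Disjoint D C},
      ∃ D' : {D : Set Z // MeasurableSet D ∧ Disjoint D C},
        ∀ z z', r z z' → z ∈ D.1 → z' ∈ D'.1 := by
    rintro ⟨D, hDm, hDC⟩
    have h1 : AnalyticSet (Prod.snd '' ({p : Z × Z | r p.1 p.2} ∩ Prod.fst ⁻¹' D)) :=
      (analytic_inter hrA (measurable_fst hDm).analyticSet).image_of_continuous continuous_snd
    have h2 : Disjoint (Prod.snd '' ({p : Z × Z | r p.1 p.2} ∩ Prod.fst ⁻¹' D)) C := by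
      rw [Set.disjoint_left]
      rintro _ ⟨⟨z, z'⟩, ⟨h3, h4⟩, rfl⟩ h5
      exact Set.disjoint_left.1 hDC h4 (hCi _ _ h3 h5)
    obtain ⟨U, hU1, hU2, hU3⟩ := h1.measurablySeparable hC h2
    refine ⟨⟨U, hU3, hU2.symm⟩, ?_⟩
    intro z z' h3 h4
    exact hU1 ⟨(z, z'), ⟨h3, h4⟩, rfl⟩
  choose nx hnx using hsat
  obtain ⟨U₀, hU1, hU2, hU3⟩ := hA.measurablySeparable hC hd
  obtain ⟨B, hB0, hB⟩ : ∃ B : ℕ → {D : Set Z // MeasurableSet D ∧ Disjoint D C},
      (B 0).1 = U₀ ∧ ∀ n, B (n + 1) = nx (B n) :=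
    ⟨fun n => Nat.rec ⟨U₀, hU3, hU2.symm⟩ (fun _ D => nx D) n, rfl, fun _ => rfl⟩
  refine ⟨⋃ n, (B n).1, MeasurableSet.iUnion fun n => (B n).2.1, ?_, ?_, ?_⟩
  · refine hU1.trans ?_
    rw [← hB0]
    exact subset_iUnion (fun n => (B n).1) 0
  · rw [Set.disjoint_iUnion_left]
    exact fun n => (B n).2.2
  · intro z z' h1 h2
    obtain ⟨n, hn⟩ := mem_iUnion.1 h2
    refine mem_iUnion.2 ⟨n + 1, ?_⟩
    rw [hB]
    exact hnx _ _ _ h1 hn

end Pool.Agent.Helper172.HS
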